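import Pool.Agent.H44AB.Main

/-!
# MP_ab80ef_co: `f(2^{-j}) = j 2^{-j}` for every positive integer `j`
-/

open Finset

namespace Pool.Agent.Results.MP_ab80ef_co.ExactStability

open H44AB

/-- The hypercube graph `Q_n`: two vertices are adjacent when they differ in exactly one
coordinate. -/
def cube (n : ℕ) : SimpleGraph (Fin n → Bool) where
  Adj x y := hammingDist x y = 1
  symm := ⟨fun x y h => by rw [hammingDist_comm]; exact h⟩
  loopless := ⟨fun x h => by rw [hammingDist_self] at h; exact absurd h (by norm_num)⟩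

/-- The edge boundary of `A`: the edges of `Q_n` with exactly one endpoint in `A`. -/
def edgeBoundary {n : ℕ} (A : Finset (Fin n → Bool)) : Set (Sym2 (Fin n → Bool)) :=
  {e | e ∈ (cube n).edgeSet ∧ ∃ x ∈ A, ∃ y, y ∉ A ∧ e = s(x, y)}

/-- The quantity `(|∂A| - |A| log₂(2^n/|A|)) / |A|`. -/
noncomputable def excess {n : ℕ} (A : Finset (Fin n → Bool)) : ℝ :=
  (((edgeBoundary A).ncard : ℝ) - (A.card : ℝ) * Real.logb 2 ((2:ℝ)^n / (A.card : ℝ))) / (A.card : ℝ)

/-- The values of `excess A` over all `n ≥ 1` and all `A ⊆ {0,1}^n` such that `|A|` is a power of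
two and `|A ∆ C| ≥ δ |A|` for every subcube `C` (`subcube S a` is the set of the points `x` with
`x i = a i` for all `i ∈ S`). -/
def excessSet (δ : ℝ) : Set ℝ :=
  {r | ∃ n : ℕ, 1 ≤ n ∧ ∃ A : Finset (Fin n → Bool), (∃ k : ℕ, A.card = 2^k) ∧
    (∀ (S : Finset (Fin n)) (a : Fin n → Bool),
      δ * (A.card : ℝ) ≤ ((symmDiff A (subcube S a)).card : ℝ)) ∧ r = excess A}

/-- The function `f` of the problem. -/
noncomputable def f (δ : ℝ) : ℝ := sInf (excessSet δ)

/-! ## The edge boundary and `e2` -/

lemma adj_iff {n : ℕ} (x y : Fin n → Bool) :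
    hammingDist x y = 1 ↔ ∃ i, y = Function.update x i (!x i) := by
  unfold hammingDist
  rw [Finset.card_eq_one]
  constructor
  · rintro ⟨i, hi⟩
    refine ⟨i, ?_⟩
    funext k
    by_cases hk : k = i
    · subst hk
      have : k ∈ ({k} : Finset (Fin n)) := by simp
      rw [← hi] at this
      simp only [mem_filter, mem_univ, true_and] at this
      rw [Function.update_self]
      revert this
      cases x k <;> cases y k <;> simp
    · have : k ∉ ({i} : Finset (Fin n)) := by simpa using hk
      rw [← hi] at this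
      simp only [mem_filter, mem_univ, true_and, not_not] at this
      rw [Function.update_of_ne hk, this]
  · rintro ⟨i, rfl⟩
    refine ⟨i, ?_⟩
    ext k
    simp only [mem_filter, mem_univ, true_and, mem_singleton]
    by_cases hk : k = i
    · subst hk; simp
    · simp [hk]

lemma flip_inj {n : ℕ} (x : Fin n → Bool) (i k : Fin n)
    (h : Function.update x i (!x i) = Function.update x k (!x k)) : i = k := by
  by_contra hne
  have := congrFun h i
  rw [Function.update_self, Function.update_of_ne hne] at this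
  revert this
  cases x i <;> simp

lemma ncard_boundary {n : ℕ} (A : Finset (Fin n → Bool)) :
    (edgeBoundary A).ncard + e2 A = n * A.card := by
  classical
  set P : Finset ((Fin n → Bool) × Fin n) :=
    (A ×ˢ (univ : Finset (Fin n))).filter (fun p => Function.update p.1 p.2 (!p.1 p.2) ∉ A) with hP
  have himg : edgeBoundary A =
      ((P.image (fun p => s(p.1, Function.update p.1 p.2 (!p.1 p.2))) : Finset _) : Set _) := by
    ext e
    simp only [edgeBoundary, Set.mem_ofPred_eq, Finset.coe_image, Set.mem_image, Finset.mem_coe, hP,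
      mem_filter, mem_product, mem_univ, and_true]
    constructor
    · rintro ⟨he, x, hx, y, hy, rfl⟩
      rw [SimpleGraph.mem_edgeSet] at he
      obtain ⟨i, rfl⟩ := (adj_iff x y).1 he
      exact ⟨(x, i), ⟨hx, hy⟩, rfl⟩
    · rintro ⟨⟨x, i⟩, ⟨hx, hy⟩, rfl⟩
      refine ⟨?_, x, hx, _, hy, rfl⟩
      rw [SimpleGraph.mem_edgeSet]
      exact (adj_iff _ _).2 ⟨i, rfl⟩
  rw [himg, Set.ncard_coe_finset, Finset.card_image_of_injOn]
  · have hcount : P.card = ∑ i : Fin n, (A.filter (fun x => Function.update x i (!x i) ∉ A)).card := by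
      rw [hP, Finset.card_filter, Finset.sum_product_right]
      apply Finset.sum_congr rfl
      intro i _
      rw [Finset.card_filter]
    rw [hcount]
    unfold e2
    rw [← Finset.sum_add_distrib]
    have : ∀ i : Fin n, (A.filter (fun x => Function.update x i (!x i) ∉ A)).card +
        (A.filter (fun x => Function.update x i (!x i) ∈ A)).card = A.card := by
      intro i
      rw [Nat.add_comm]
      exact Finset.card_filter_add_card_filter_not _
    rw [Finset.sum_congr rfl (fun i _ => this i)]
    simp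
  · rintro ⟨x, i⟩ hx ⟨y, k⟩ hy hxy
    simp only [hP, Finset.coe_filter, mem_product, mem_univ, and_true, Set.mem_ofPred_eq] at hx hy
    simp only [Sym2.eq_iff] at hxy
    rcases hxy with ⟨h1, h2⟩ | ⟨h1, h2⟩
    · subst h1
      rw [flip_inj x i k h2]
    · exfalso
      rw [h1] at hx
      exact hy.2 hx.1

lemma excess_eq {n k : ℕ} (A : Finset (Fin n → Bool)) (hA : A.card = 2^k) :
    excess A = (Phi k A : ℝ) / 2^k := by
  unfold excess Phi
  have hb := ncard_boundary A
  have hb' : ((edgeBoundary A).ncard : ℝ) + (e2 A : ℝ) = n * A.card := by exact_mod_cast hb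
  have hlog : Real.logb 2 ((2:ℝ)^n / (A.card : ℝ)) = n - k := by
    rw [hA]
    push_cast
    rw [Real.logb_div (by positivity) (by positivity), Real.logb_pow, Real.logb_pow,
      Real.logb_self_eq_one (by norm_num)]
    ring
  rw [hlog]
  have hA' : (A.card : ℝ) = 2^k := by exact_mod_cast hA
  push_cast
  rw [hA'] at hb' ⊢
  congr 1
  linarith

/-! ## Lower bound -/

lemma two_mul_le_pow (j : ℕ) (hj : 1 ≤ j) : 2 * j ≤ 2^j := by
  induction j, hj using Nat.le_induction with
  | base => norm_num
  | succ k hk ih => rw [pow_succ]; omega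

lemma anti (i j : ℕ) (hi : 1 ≤ i) (hij : i ≤ j) :
    (j:ℝ) * (1/2)^j ≤ (i:ℝ) * (1/2)^i := by
  induction j, hij using Nat.le_induction with
  | base => exact le_refl _
  | succ k hk ih =>
    refine le_trans ?_ ih
    rw [pow_succ]
    have h1 : (0:ℝ) ≤ (1/2)^k := by positivity
    have h2 : (1:ℝ) ≤ k := by exact_mod_cast hi.trans hk
    push_cast
    nlinarith

lemma lower {n k j : ℕ} (hj : 1 ≤ j) (A : Finset (Fin n → Bool)) (hA : A.card = 2^k)
    (hfar : ∀ (S : Finset (Fin n)) (a : Fin n → Bool),
      (1/2:ℝ)^j * (A.card : ℝ) ≤ ((symmDiff A (subcube S a)).card : ℝ)) :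
    (j:ℝ) * (1/2)^j ≤ (Phi k A : ℝ) / 2^k := by
  have hAz : (A.card : ℤ) = 2^k := by exact_mod_cast hA
  have hpos : (0:ℝ) < 2^k := by positivity
  have hposz : (0:ℤ) < 2^k := by positivity
  by_cases F : Far k A
  · have g := stability n k A F (by rw [hAz]; linarith) (by rw [hAz]; linarith)
    rw [Good_iff, hAz] at g
    have hg : (2:ℤ)^k ≤ 2 * Phi k A := by
      rcases g with g | ⟨_, g⟩
      · exact g
      · linarith
    have hg' : (2:ℝ)^k ≤ 2 * (Phi k A : ℝ) := by exact_mod_cast hg
    have h1 := anti 1 j (le_refl _) hj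
    have h2 : (1/2:ℝ) ≤ (Phi k A : ℝ) / 2^k := by
      rw [le_div_iff₀ hpos]; linarith
    norm_num at h1
    refine le_trans ?_ h2
    convert h1 using 2
  · unfold Far at F
    push Not at F
    obtain ⟨C, hC, hβ⟩ := F
    obtain ⟨S, a, hSa⟩ := IsSub_subcube _ _ _ hC
    have hf := hfar S a
    rw [← hSa] at hf
    have hcard := card_IsSub _ _ _ hC
    have hK := K_lemma _ _ _ hC A
    have e1 : A.card = (A ∩ C).card + (A \ C).card := by
      rw [Finset.card_inter_add_card_sdiff]
    have e2' : C.card = (A ∩ C).card + (C \ A).card := by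
      rw [Finset.inter_comm, Finset.card_inter_add_card_sdiff]
    have hyz : (C \ A).card = (A \ C).card := by omega
    have hsd : (symmDiff A C).card = (A \ C).card + (C \ A).card := by
      rw [symmDiff_def, Finset.sup_eq_union, Finset.card_union_of_disjoint]
      exact disjoint_sdiff_sdiff
    rw [hsd, hyz, hA] at hf
    set y := (A \ C).card with hy
    -- `4 y < 2^k`
    have hβ' : 3 * 2^k < 4 * (A ∩ C).card := by exact_mod_cast hβ
    have hy4 : 4 * y < 2^k := by omega
    -- `2^k ≤ 2^(j+1) y`
    have hyj : 2^k ≤ 2^(j+1) * y := by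
      have h1 : (1/2:ℝ)^j * 2^j = 1 := by rw [← mul_pow]; norm_num
      have h2 : (2:ℝ)^k ≤ 2^(j+1) * y := by
        push_cast at hf
        have h3 : (0:ℝ) < 2^j := by positivity
        have h4 := mul_le_mul_of_nonneg_left hf h3.le
        calc (2:ℝ)^k = ((1/2:ℝ)^j * 2^j) * 2^k := by rw [h1]; ring
          _ = 2^j * ((1/2:ℝ)^j * 2^k) := by ring
          _ ≤ 2^j * ((y:ℝ) + y) := h4
          _ = 2^(j+1) * y := by ring
      exact_mod_cast h2
    have hy0 : y ≠ 0 := by
      rintro h0
      rw [h0] at hyj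
      have : 0 < 2^k := by positivity
      omega
    set m := Nat.log 2 y with hm
    have hm1 : 2^m ≤ y := Nat.pow_log_le_self 2 hy0
    have hm2 : y < 2^(m+1) := Nat.lt_pow_succ_log_self (by norm_num) y
    have hmk : m + 3 ≤ k := by
      have : 2^(m+2) < 2^k := by
        calc 2^(m+2) = 4 * 2^m := by ring
          _ ≤ 4 * y := by omega
          _ < 2^k := hy4
      have := (Nat.pow_lt_pow_iff_right (by norm_num : 1 < 2)).1 this
      omega
    have hkj : k < j + 1 + (m + 1) := by
      have : 2^k < 2^(j+1+(m+1)) := by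
        calc 2^k ≤ 2^(j+1) * y := hyj
          _ < 2^(j+1) * 2^(m+1) := by
            apply Nat.mul_lt_mul_of_pos_left hm2; positivity
          _ = 2^(j+1+(m+1)) := by rw [← pow_add]
      exact (Nat.pow_lt_pow_iff_right (by norm_num : 1 < 2)).1 this
    obtain ⟨t, ht⟩ : ∃ t, k = t + (m + 3) := ⟨k - (m+3), by omega⟩
    -- bounds for the two small pieces
    have hc := E_chord m y hm1 (by omega)
    have p1 : (e2 (A \ C) : ℤ) + 2^(m+1) ≤ (m+2) * y := by
      have h1 := e2_le (A \ C)
      rw [← hy] at h1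
      have : e2 (A \ C) + 2^(m+1) ≤ (m+2) * y := by omega
      exact_mod_cast this
    have p2 : (e2 (C \ A) : ℤ) + 2^(m+1) ≤ (m+2) * y := by
      have h1 := e2_le (C \ A)
      rw [hyz] at h1
      have : e2 (C \ A) + 2^(m+1) ≤ (m+2) * y := by omega
      exact_mod_cast this
    have hPhi : (2:ℤ)^(m+1) * (t + 2) ≤ Phi k A := by
      have hz : ((C \ A).card : ℤ) = y := by exact_mod_cast hyz
      have q1 : Phi k (A \ C) = (k:ℤ) * y - e2 (A \ C) := by unfold Phi; rw [← hy]
      have q2 : Phi k (C \ A) = (k:ℤ) * y - e2 (C \ A) := by unfold Phi; rw [hz]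
      rw [q1, q2] at hK
      have hk' : (k:ℤ) = t + (m + 3) := by exact_mod_cast ht
      rw [hk'] at hK
      have hmz : (2:ℤ)^m ≤ y := by exact_mod_cast hm1
      have ht0 : (0:ℤ) ≤ t := by positivity
      have hm' : (2:ℤ)^(m+1) = 2 * 2^m := by ring
      rw [hm'] at p1 p2 ⊢
      nlinarith
    have hPhiR : (2:ℝ)^(m+1) * (t + 2) ≤ Phi k A := by exact_mod_cast hPhi
    have h1 := anti (t+2) j (by omega) (by omega)
    refine h1.trans ?_
    rw [le_div_iff₀ hpos]
    refine le_trans (le_of_eq ?_) hPhiR
    rw [ht]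
    have : (1/2:ℝ)^(t+2) * 2^(t+2) = 1 := by rw [← mul_pow]; norm_num
    push_cast
    calc ((t:ℝ) + 2) * (1/2)^(t+2) * 2^(t+(m+3)) = (((1/2:ℝ)^(t+2) * 2^(t+2))) * (2^(m+1) * ((t:ℝ)+2)) := by ring
      _ = 2^(m+1) * ((t:ℝ)+2) := by rw [this]; ring

/-! ## The extremal example -/

lemma IsSub_univ (n : ℕ) : IsSub n n (univ : Finset (Fin n → Bool)) := by
  induction n with
  | zero => exact ⟨rfl, rfl⟩
  | succ n ih =>
    have h : lift (univ : Finset (Fin n → Bool)) = univ := by ext x; simp [lift]
    rw [← h]; exact IsSub_lift ih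

def exA (j : ℕ) : Finset (Fin (j+2) → Bool) :=
  univ.filter (fun x => (x 0 = false ∧ Fin.tail x ≠ fun _ => true) ∨
    (x 0 = true ∧ Fin.tail x = fun _ => false))

lemma sl_exA_false (j : ℕ) : sl false (exA j) = univ \ {fun _ => true} := by
  ext x; simp [exA]

lemma sl_exA_true (j : ℕ) : sl true (exA j) = {fun _ => false} := by
  ext x; simp [exA]

lemma card_exA (j : ℕ) : (exA j).card = 2^(j+1) := by
  rw [card_sl, sl_exA_false, sl_exA_true, card_singleton,
    card_sdiff_of_subset (by simp), card_singleton, card_univ]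
  simp only [Fintype.card_pi, Fintype.card_bool, prod_const, card_univ, Fintype.card_fin]
  have : 0 < 2^(j+1) := by positivity
  omega

lemma Phi_singleton {n : ℕ} (D : ℕ) (x : Fin n → Bool) : Phi D {x} = D := by
  have h : e2 ({x} : Finset (Fin n → Bool)) = 0 := by
    have := e2_le ({x} : Finset (Fin n → Bool))
    rw [card_singleton, E_one] at this
    omega
  unfold Phi; rw [h]; simp

lemma Phi_empty {n : ℕ} (D : ℕ) : Phi D (∅ : Finset (Fin n → Bool)) = 0 := by
  unfold Phi e2; simp

lemma Phi_compl_singleton {n : ℕ} (x : Fin n → Bool) : Phi n (univ \ {x}) = n := by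
  have h1 := K_lemma n n univ (IsSub_univ n) (univ \ {x})
  have h2 := K_lemma n n univ (IsSub_univ n) {x}
  have e1 : (univ : Finset (Fin n → Bool)) \ (univ \ {x}) = {x} := by
    ext z; simp
  have e2' : (univ \ {x}) \ (univ : Finset (Fin n → Bool)) = ∅ := by
    rw [Finset.sdiff_eq_empty_iff_subset]; exact subset_univ _
  have e3 : ({x} : Finset (Fin n → Bool)) \ univ = ∅ := by
    rw [Finset.sdiff_eq_empty_iff_subset]; exact subset_univ _
  rw [e1, e2', Phi_singleton, Phi_empty, card_empty] at h1
  rw [e3, Phi_singleton, Phi_empty, card_empty] at h2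
  push_cast at h1 h2
  linarith

lemma Phi_exA (j : ℕ) : Phi (j+1) (exA j) = 2 * j := by
  have hint : (sl false (exA j) ∩ sl true (exA j)).card = 1 := by
    rw [sl_exA_false, sl_exA_true, Finset.card_eq_one]
    refine ⟨fun _ => false, ?_⟩
    ext x
    simp only [mem_inter, mem_sdiff, mem_univ, mem_singleton, true_and]
    constructor
    · exact fun h => h.2
    · rintro rfl
      refine ⟨?_, rfl⟩
      intro h
      have := congrFun h 0
      simp at this
  rw [Phi_sl, hint, sl_exA_false, sl_exA_true, Phi_singleton, Phi_compl_singleton]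
  push_cast; ring

lemma subcube_even {n : ℕ} (S : Finset (Fin n)) (a : Fin n → Bool) (hS : S ≠ univ) :
    2 ∣ (subcube S a).card := by
  classical
  have h : subcube S a = Fintype.piFinset (fun i => if i ∈ S then {a i} else univ) := by
    ext x
    simp only [subcube, mem_filter, mem_univ, true_and, Fintype.mem_piFinset]
    constructor
    · intro h i
      by_cases hi : i ∈ S
      · simp [hi, h i hi]
      · simp [hi]
    · intro h i hi
      have := h i
      simpa [hi] using this
  rw [h, Fintype.card_piFinset]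
  obtain ⟨i, hi⟩ : ∃ i, i ∉ S := by
    by_contra hcon
    push Not at hcon
    exact hS (Finset.eq_univ_iff_forall.2 hcon)
  refine Dvd.dvd.trans ?_ (Finset.dvd_prod_of_mem _ (mem_univ i))
  simp [hi]

lemma exA_ne_subcube (j : ℕ) (hj : 1 ≤ j) (S : Finset (Fin (j+2))) (a : Fin (j+2) → Bool) :
    exA j ≠ subcube S a := by
  intro h
  obtain ⟨i, rfl⟩ : ∃ i, j = i + 1 := ⟨j - 1, by omega⟩
  have hp0 : (Fin.cons false (fun _ => false) : Fin (i+1+2) → Bool) ∈ exA (i+1) := by
    simp only [exA, mem_filter, mem_univ, true_and]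
    left
    refine ⟨by simp, ?_⟩
    intro h
    have := congrFun h 0
    simp at this
  have hp1 : (Fin.cons true (fun _ => false) : Fin (i+1+2) → Bool) ∈ exA (i+1) := by
    simp only [exA, mem_filter, mem_univ, true_and]
    right
    exact ⟨by simp, by simp⟩
  have hq : (Fin.cons false (Fin.cons true (fun _ => false)) : Fin (i+1+2) → Bool) ∈ exA (i+1) := by
    simp only [exA, mem_filter, mem_univ, true_and]
    left
    refine ⟨by simp, ?_⟩
    intro h
    have := congrFun h (Fin.succ 0)
    simp only [Fin.tail, Fin.cons_succ] at this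
    exact absurd this (by simp)
  have h0 : (0 : Fin (i+1+2)) ∉ S := by
    intro h0
    rw [h] at hp0 hp1
    simp only [subcube, mem_filter, mem_univ, true_and] at hp0 hp1
    have e1 := hp0 0 h0
    have e2 := hp1 0 h0
    simp only [Fin.cons_zero] at e1 e2
    rw [← e2] at e1
    exact absurd e1 (by simp)
  have hq' : (Fin.cons true (Fin.cons true (fun _ => false)) : Fin (i+1+2) → Bool) ∈ exA (i+1) := by
    rw [h] at hq ⊢
    simp only [subcube, mem_filter, mem_univ, true_and] at hq ⊢
    intro k hk
    rw [← hq k hk]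
    cases k using Fin.cases with
    | zero => exact absurd hk h0
    | succ k => simp
  simp only [exA, mem_filter, mem_univ, true_and] at hq'
  rcases hq' with ⟨h1, _⟩ | ⟨_, h1⟩
  · simp at h1
  · have := congrFun h1 0
    simp [Fin.tail] at this

lemma exA_far (j : ℕ) (hj : 1 ≤ j) (S : Finset (Fin (j+2))) (a : Fin (j+2) → Bool) :
    2 ≤ (symmDiff (exA j) (subcube S a)).card := by
  have hsd : (symmDiff (exA j) (subcube S a)).card =
      (exA j \ subcube S a).card + (subcube S a \ exA j).card := by
    rw [symmDiff_def, Finset.sup_eq_union, Finset.card_union_of_disjoint]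
    exact disjoint_sdiff_sdiff
  have e1 := Finset.card_inter_add_card_sdiff (exA j) (subcube S a)
  have e2' := Finset.card_inter_add_card_sdiff (subcube S a) (exA j)
  rw [Finset.inter_comm] at e2'
  have hc := card_exA j
  have h4 : 4 ≤ 2^(j+1) := by
    calc 4 = 2^2 := by norm_num
      _ ≤ 2^(j+1) := Nat.pow_le_pow_right (by norm_num) (by omega)
  by_cases hS : S = univ
  · have hsub : (subcube S a).card ≤ 1 := by
      rw [Finset.card_le_one]
      intro x hx y hy
      simp only [subcube, mem_filter, mem_univ, true_and, hS] at hx hy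
      funext i
      rw [hx i trivial, hy i trivial]
    omega
  · have hev := subcube_even S a hS
    have hev' : 2 ∣ (exA j).card := by rw [hc, pow_succ]; exact Dvd.intro_left _ rfl
    have hne : (symmDiff (exA j) (subcube S a)).card ≠ 0 := by
      intro h0
      rw [Finset.card_eq_zero, ← Finset.bot_eq_empty, symmDiff_eq_bot] at h0
      exact exA_ne_subcube j hj S a h0
    omega

/-- **Main theorem.** For every positive integer `j`, the infimum defining `f(2^{-j})` is attained
and `f(2^{-j}) = j 2^{-j}`. -/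
theorem result : ∀ j : ℕ, 1 ≤ j →
    IsLeast (excessSet ((1/2:ℝ)^j)) ((j:ℝ) * (1/2)^j) ∧ f ((1/2:ℝ)^j) = (j:ℝ) * (1/2)^j := by
  intro j hj
  have hleast : IsLeast (excessSet ((1/2:ℝ)^j)) ((j:ℝ) * (1/2)^j) := by
    constructor
    · refine ⟨j+2, by omega, exA j, ⟨j+1, card_exA j⟩, ?_, ?_⟩
      · intro S a
        have h := exA_far j hj S a
        have h' : (2:ℝ) ≤ ((symmDiff (exA j) (subcube S a)).card : ℝ) := by exact_mod_cast h
        refine le_trans (le_of_eq ?_) h'
        rw [card_exA]
        push_cast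
        have : (1/2:ℝ)^j * 2^j = 1 := by rw [← mul_pow]; norm_num
        calc (1/2:ℝ)^j * 2^(j+1) = ((1/2:ℝ)^j * 2^j) * 2 := by ring
          _ = 2 := by rw [this]; ring
      · rw [excess_eq _ (card_exA j), Phi_exA]
        push_cast
        rw [eq_div_iff (by positivity)]
        have : (1/2:ℝ)^j * 2^j = 1 := by rw [← mul_pow]; norm_num
        calc (j:ℝ) * (1/2)^j * 2^(j+1) = ((1/2:ℝ)^j * 2^j) * (2 * j) := by ring
          _ = 2 * j := by rw [this]; ring
    · rintro r ⟨n, _, A, ⟨k, hk⟩, hfar, rfl⟩
      rw [excess_eq A hk]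
      exact lower hj A hk hfar
  exact ⟨hleast, hleast.csInf_eq⟩

end Pool.Agent.Results.MP_ab80ef_co.ExactStability
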